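import Pool.Agent.Run7.h41.NF.Iface

/-!
# Project NF: piece AXI
-/

set_option autoImplicit false

namespace Run7.h590.NF.AX

open Run7.h41.NF
open Run7.h955 (Ev Thru Ins am cj)

variable {n : ℕ}

theorem el_op (s : Lt n) : el (op s) = (el s)⁻¹ := by
  unfold el op
  rw [FreeGroup.inv_mk]
  rfl

theorem lt_per (n r : ℕ) : lt n (r + NN n) = lt n r := by
  unfold lt NN
  have h1 : (r + 2 * (n + 2)) / 2 = r / 2 + (n + 2) := by omega
  rw [h1]
  congr 1
  apply Fin.ext
  show (r / 2 + (n + 2)) % (n + 2) = r / 2 % (n + 2)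
  rw [Nat.add_mod_right]

theorem pr_NN (n r : ℕ) : pr n (r + NN n) = xx n * pr n r := by
  induction r with
  | zero => rw [Nat.zero_add]; show xx n = xx n * 1; rw [mul_one]
  | succ r ih =>
    have h1 : r + 1 + NN n = r + NN n + 1 := by omega
    rw [h1]
    show pr n (r + NN n) * el (lt n (r + NN n)) = xx n * (pr n r * el (lt n r))
    rw [ih, lt_per, mul_assoc]

theorem pr_mul (n r i : ℕ) : pr n (r + i * NN n) = xx n ^ i * pr n r := by
  induction i with
  | zero => simp
  | succ i ih =>
    have h1 : r + (i + 1) * NN n = r + i * NN n + NN n := by ring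
    rw [h1, pr_NN, ih, pow_succ', mul_assoc]

/-- the word of length `k` read from position `r` -/
def wd (n r k : ℕ) : List (Lt n) := (List.range k).map fun i => lt n (r + i)

theorem wd_succ (n r k : ℕ) : wd n r (k + 1) = wd n r k ++ [lt n (r + k)] := by
  unfold wd
  rw [List.range_succ, List.map_append]
  rfl

theorem pr_wd (n r k : ℕ) : pr n (r + k) = pr n r * FreeGroup.mk (wd n r k) := by
  induction k with
  | zero =>
    show pr n r = pr n r * FreeGroup.mk []
    rw [← FreeGroup.one_eq_mk, mul_one]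
  | succ k ih =>
    show pr n (r + k) * el (lt n (r + k)) = _
    rw [wd_succ, ← FreeGroup.mul_mk, ih, mul_assoc]
    rfl

theorem wd_red (n r k : ℕ) : FreeGroup.IsReduced (wd n r k) := by
  have h : ∀ s ∈ wd n r k, s.2 = true := by
    intro s hs
    unfold wd at hs
    obtain ⟨i, _, rfl⟩ := List.mem_map.1 hs
    rfl
  unfold FreeGroup.IsReduced
  apply List.Pairwise.isChain
  rw [List.pairwise_iff_forall_sublist]
  intro a b hab _
  rw [h a (hab.subset (by simp)), h b (hab.subset (by simp))]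

theorem word_diff (n r k : ℕ) : ((pr n r)⁻¹ * pr n (r + k)).toWord = wd n r k := by
  rw [pr_wd, inv_mul_cancel_left, FreeGroup.toWord_mk]
  exact (wd_red n r k).reduce_eq

theorem norm_diff (n r k : ℕ) : ((pr n r)⁻¹ * pr n (r + k)).norm = k := by
  unfold FreeGroup.norm
  rw [word_diff]
  simp [wd]

theorem norm_pr (n r : ℕ) : (pr n r).norm = r := by
  have h := norm_diff n 0 r
  rw [Nat.zero_add] at h
  have h1 : pr n 0 = 1 := rfl
  rw [h1, inv_one, one_mul] at h
  exact h

theorem norm_diff' (n r k : ℕ) : ((pr n (r + k))⁻¹ * pr n r).norm = k := by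
  have h := norm_diff n r k
  rw [← FreeGroup.norm_inv_eq, mul_inv_rev, inv_inv] at h
  exact h

theorem lt_ne_op (n r r' : ℕ) : lt n r ≠ op (lt n r') := by
  intro h
  have := congrArg Prod.snd h
  simp [lt, op] at this

theorem t_AXI : S_SH → S_EVB → S_AXI := by
  intro hSH _ n
  obtain ⟨htr, hcompl, _, _, huniq, _, hchild, _, hnorm, _, hinf⟩ := hSH n
  have h3 : ∀ r m : ℕ, r < m → pr n m ∈ Sh (pr n r) (lt n r) := by
    intro r m hrm
    obtain ⟨k, rfl⟩ : ∃ k, m = r + (k + 1) := ⟨m - r - 1, by omega⟩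
    show ((pr n r)⁻¹ * pr n (r + (k + 1))).toWord.head? = some (lt n r)
    rw [word_diff]
    unfold wd
    rw [List.range_succ_eq_map]
    rfl
  have h4 : ∀ r m : ℕ, m ≤ r → pr n m ∉ Sh (pr n r) (lt n r) := by
    intro r m hrm h
    have h5 := hnorm _ _ _ h
    have h6 : pr n r * el (lt n r) = pr n (r + 1) := rfl
    rw [h6] at h5
    obtain ⟨k, rfl⟩ : ∃ k, r = m + k := ⟨r - m, by omega⟩
    have h7 : m + k + 1 = m + (k + 1) := by ring
    rw [h7, norm_diff', norm_diff'] at h5
    omega
  have hstep : ∀ m : ℕ, Sh (pr n (m + 1)) (lt n (m + 1)) ⊆ Sh (pr n m) (lt n m) := fun m =>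
    hchild (pr n m) (lt n m) (lt n (m + 1)) (lt_ne_op n _ _)
  have h5 : ∀ r m : ℕ, r ≤ m → Sh (pr n m) (lt n m) ⊆ Sh (pr n r) (lt n r) := by
    intro r m hrm
    induction m, hrm using Nat.le_induction with
    | base => exact subset_rfl
    | succ m _ ih => exact (hstep m).trans ih
  have h6 : H n 0 = Sh (pr n 0) (lt n 0) := by
    unfold H
    rw [zpow_zero]
    rfl
  have h7 : H n 1 = Sh (pr n (NN n)) (lt n (NN n)) := by
    unfold H
    rw [zpow_one]
    have : lt n (NN n) = lt n 0 := by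
      have := lt_per n 0
      rwa [Nat.zero_add] at this
    rw [this]
    rfl
  have h8 : ∀ i j : ℤ, tr (xx n ^ i) (H n j) = H n (i + j) := by
    intro i j
    unfold H
    rw [htr, zpow_add]
  have htrmono : ∀ (g : FG n) (A B : Set (FG n)), A ⊆ B → tr g A ⊆ tr g B := fun g A B h y hy => h hy
  have h9' : ∀ j : ℤ, H n (j + 1) ⊆ H n j := by
    intro j
    have e1 : H n (j + 1) = tr (xx n ^ j) (H n 1) := (h8 j 1).symm
    have e2 : H n j = tr (xx n ^ j) (H n 0) := by rw [h8, add_zero]
    rw [e1, e2, h6, h7]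
    exact htrmono _ _ _ (h5 0 (NN n) (Nat.zero_le _))
  have h9 : ∀ i j : ℤ, i ≤ j → H n j ⊆ H n i := by
    intro i j hij
    induction j, hij using Int.le_induction with
    | base => exact subset_rfl
    | succ m _ ih => exact (h9' m).trans ih
  have hinf01 : (H n 0 \ H n 1).Infinite := by
    have h10 : Sh (pr n 1) ((1 : Fin (n + 2)), true) ⊆ H n 0 \ H n 1 := by
      intro y hy
      refine ⟨?_, fun hy1 => ?_⟩
      · rw [h6]
        refine hchild (pr n 0) (lt n 0) (1, true) ?_ hy
        intro h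
        have := congrArg Prod.snd h
        simp [lt, op] at this
      · rw [h7] at hy1
        have h11 := h5 1 (NN n) (by unfold NN; omega) hy1
        have h12 := huniq _ _ _ _ hy h11
        have h13 := congrArg Prod.fst h12
        have h14 : (lt n 1).1 = 0 := rfl
        rw [h14] at h13
        exact absurd h13 (by simp)
    exact (hinf _ _).mono h10
  have hshift : ∀ j : ℤ, (H n j \ H n (j + 1)).Infinite := by
    intro j
    have e1 : H n (j + 1) = tr (xx n ^ j) (H n 1) := (h8 j 1).symm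
    have e2 : H n j = tr (xx n ^ j) (H n 0) := by rw [h8, add_zero]
    have e3 : H n j \ H n (j + 1) = (fun y => (xx n ^ j) * y) '' (H n 0 \ H n 1) := by
      rw [e1, e2]
      ext y
      constructor
      · rintro ⟨ha, hb⟩
        exact ⟨(xx n ^ j)⁻¹ * y, ⟨ha, hb⟩, by simp⟩
      · rintro ⟨z, ⟨ha, hb⟩, rfl⟩
        refine ⟨?_, ?_⟩
        · show (xx n ^ j)⁻¹ * (xx n ^ j * z) ∈ H n 0
          rw [inv_mul_cancel_left]
          exact ha
        · show ¬ (xx n ^ j)⁻¹ * (xx n ^ j * z) ∈ H n 1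
          rw [inv_mul_cancel_left]
          exact hb
    rw [e3]
    exact hinf01.image (fun a _ b _ h => mul_left_cancel h)
  have h10 : ∀ i j : ℤ, i < j → (H n i \ H n j).Infinite := by
    intro i j hij
    exact (hshift i).mono fun y hy => ⟨hy.1, fun h => hy.2 (h9 (i + 1) j (by omega) h)⟩
  -- norms
  have hn1 : ∀ (m : ℕ) (y : FG n), y ∈ Sh (pr n m) (lt n m) →
      ((pr n (m + 1))⁻¹ * y).norm + (m + 1) = y.norm := by
    intro m
    induction m with
    | zero =>
      intro y hy
      have h := hnorm _ _ _ hy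
      have e : pr n 0 * el (lt n 0) = pr n (0 + 1) := rfl
      have e2 : (pr n 0)⁻¹ * y = y := by
        show (1 : FG n)⁻¹ * y = y
        simp
      rw [e, e2] at h
      exact h
    | succ m ih =>
      intro y hy
      have h := hnorm _ _ _ hy
      have e : pr n (m + 1) * el (lt n (m + 1)) = pr n (m + 1 + 1) := rfl
      rw [e] at h
      have h2 := ih y (hstep m hy)
      omega
  have hHnat : ∀ j : ℕ, H n (j : ℤ) = Sh (pr n (j * NN n)) (lt n (j * NN n)) := by
    intro j
    unfold H
    have e1 : pr n (j * NN n) = xx n ^ j := by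
      have := pr_mul n 0 j
      rw [Nat.zero_add] at this
      rw [this]
      show xx n ^ j * 1 = xx n ^ j
      rw [mul_one]
    have e2 : lt n (j * NN n) = ((0 : Fin (n + 2)), true) := by
      induction j with
      | zero => simp only [Nat.zero_mul]; rfl
      | succ j ih =>
        have : (j + 1) * NN n = j * NN n + NN n := by ring
        rw [this, lt_per]
        apply ih
        have := pr_mul n 0 j
        rw [Nat.zero_add] at this
        rw [this]
        show xx n ^ j * 1 = xx n ^ j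
        rw [mul_one]
    rw [e1, e2, zpow_natCast]
  have hNN : 1 ≤ NN n := by unfold NN; omega
  have h11 : ∀ y : FG n, ∃ J : ℤ, ∀ j, J ≤ j → y ∉ H n j := by
    intro y
    refine ⟨(y.norm : ℤ) + 1, fun j hj hy => ?_⟩
    obtain ⟨m, rfl⟩ : ∃ m : ℕ, j = m := ⟨j.toNat, by omega⟩
    rw [hHnat] at hy
    have h := hn1 _ _ hy
    have h2 : m ≤ m * NN n := Nat.le_mul_of_pos_right m hNN
    omega
  have hn2 : ∀ (z : FG n), z ∉ H n 0 → ∀ m : ℕ, ((pr n m)⁻¹ * z).norm = z.norm + m := by
    intro z hz m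
    induction m with
    | zero =>
      show ((1 : FG n)⁻¹ * z).norm = _
      simp
    | succ m ih =>
      have h1 : z ∈ (Sh (pr n m) (lt n m))ᶜ := by
        intro h
        apply hz
        rw [h6]
        exact h5 0 m (Nat.zero_le _) h
      rw [hcompl] at h1
      have h2 := hnorm _ _ _ h1
      have e : pr n m * el (lt n m) = pr n (m + 1) := rfl
      have e2 : pr n m * el (lt n m) * el (op (lt n m)) = pr n m := by
        rw [el_op, mul_inv_cancel_right]
      rw [e2, e] at h2
      omega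
  have h12 : ∀ y : FG n, ∃ J : ℤ, ∀ j, j ≤ J → y ∈ H n j := by
    intro y
    have hk : y ∈ H n (-((y.norm + 1 : ℕ) : ℤ)) := by
      have e1 : H n (-((y.norm + 1 : ℕ) : ℤ)) = tr (xx n ^ (-((y.norm + 1 : ℕ) : ℤ))) (H n 0) := by
        rw [h8, add_zero]
      rw [e1]
      show (xx n ^ (-((y.norm + 1 : ℕ) : ℤ)))⁻¹ * y ∈ H n 0
      rw [← zpow_neg, neg_neg, zpow_natCast]
      by_contra hcon
      have h := hn2 _ hcon ((y.norm + 1) * NN n)
      have e2 : pr n ((y.norm + 1) * NN n) = xx n ^ (y.norm + 1) := by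
        have := pr_mul n 0 (y.norm + 1)
        rw [Nat.zero_add] at this
        rw [this]
        show xx n ^ (y.norm + 1) * 1 = _
        rw [mul_one]
      rw [e2, inv_mul_cancel_left] at h
      have h2 : y.norm + 1 ≤ (y.norm + 1) * NN n := Nat.le_mul_of_pos_right _ hNN
      omega
    exact ⟨-((y.norm + 1 : ℕ) : ℤ), fun j hj => h9 j _ hj hk⟩
  have hmem : ∀ (i j : ℤ) (z : FG n), xx n ^ i * z ∈ H n j ↔ z ∈ H n (j - i) := by
    intro i j z
    have e1 : H n (j - i) = tr (xx n ^ (-i)) (H n j) := by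
      rw [h8]
      congr 1
      ring
    rw [e1]
    show _ ↔ (xx n ^ (-i))⁻¹ * z ∈ H n j
    rw [← zpow_neg, neg_neg]
  refine ⟨lt_per n, pr_mul n, norm_pr n, h3, h4, h5, h6, h7, h8, h9, h10, h11, h12, ?_, ?_⟩
  · intro h
    have h1 : (xx n).norm = NN n := norm_pr n (NN n)
    rw [h, FreeGroup.norm_one] at h1
    omega
  · intro j
    refine ⟨fun z => ?_, fun z => ?_⟩
    · obtain ⟨J, hJ⟩ := h12 z
      filter_upwards [Filter.eventually_ge_atTop (j - J).toNat] with m hm
      rw [← zpow_natCast, hmem]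
      exact hJ _ (by omega)
    · obtain ⟨J, hJ⟩ := h11 z
      filter_upwards [Filter.eventually_ge_atTop (J - j).toNat] with m hm
      show ¬ (xx n)⁻¹ ^ m * z ∈ H n j
      rw [inv_pow, ← zpow_natCast, ← zpow_neg, hmem]
      exact hJ _ (by omega)

end Run7.h590.NF.AX
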