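import Pool.Agent.Run7.h41.NF.Iface

/-!
# Project NF: pieces NES, WAL
-/

set_option autoImplicit false

namespace Run7.h590.NF

open Run7.h41.NF
open Run7.h955 (Ev Thru Ins am cj)

theorem el_op {n : ℕ} (s : Lt n) : el (op s) = (el s)⁻¹ := by
  unfold el op
  rw [FreeGroup.inv_mk]
  rfl

theorem el_mul_op {n : ℕ} (s : Lt n) : el s * el (op s) = 1 := by
  rw [el_op, mul_inv_cancel]

theorem op_op {n : ℕ} (s : Lt n) : op (op s) = s := by
  unfold op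
  simp

theorem t_NES : S_SH → S_CON → S_NES := by
  intro hSH hCON n v w s t
  obtain ⟨_, hcompl, _, _, _, hedge, _⟩ := hSH n
  have key : ∀ (w : FG n) (t : Lt n), ¬ (v ∈ Sh w t ∧ v * el s ∈ Sh w t) →
      Sh w t ⊆ Sh v s ∨ Sh w t ⊆ (Sh v s)ᶜ := by
    intro w t hno
    apply hCON n (Sh v s) w t
    intro y hy t' hy'
    by_contra hcon
    rw [not_iff] at hcon
    by_cases h1 : y ∈ Sh v s
    · have h2 : y * el t' ∉ Sh v s := fun h => hcon.2 h1 h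
      have h3 : y * el t' * el (op t') ∈ Sh v s := by
        rw [mul_assoc, el_mul_op, mul_one]
        exact h1
      obtain ⟨h4, h5⟩ := hedge v (y * el t') s (op t') h2 h3
      apply hno
      rw [← h4, ← h5, mul_assoc, el_mul_op, mul_one]
      exact ⟨hy', hy⟩
    · have h2 : y * el t' ∈ Sh v s := by
        by_contra h
        exact h1 (hcon.1 h)
      obtain ⟨h4, h5⟩ := hedge v y s t' h1 h2
      apply hno
      rw [← h4, ← h5]
      exact ⟨hy, hy'⟩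
  by_cases h : v ∈ Sh w t ∧ v * el s ∈ Sh w t
  · have h2 := hcompl w t
    have h3 : ¬ (v ∈ Sh (w * el t) (op t) ∧ v * el s ∈ Sh (w * el t) (op t)) := by
      rw [← h2]
      exact fun h4 => h4.1 h.1
    rcases key _ _ h3 with h4 | h4
    · right; right; right
      rw [h2]
      exact Set.eq_empty_of_forall_notMem fun x hx => hx.1 (h4 hx.2)
    · right; left
      rw [h2]
      exact Set.eq_empty_of_forall_notMem fun x hx => h4 hx.2 hx.1
  · rcases key _ _ h with h4 | h4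
    · right; right; left
      exact Set.eq_empty_of_forall_notMem fun x hx => hx.1 (h4 hx.2)
    · left
      exact Set.eq_empty_of_forall_notMem fun x hx => h4 hx.2 hx.1

theorem inf_pre {α β : Type*} (e : α ≃ β) (S : Set β) : (e ⁻¹' S).Infinite ↔ S.Infinite := by
  rw [← Set.infinite_image_iff (f := e) (s := e ⁻¹' S) e.injective.injOn, e.image_preimage]

theorem X4_pre {n : ℕ} (e : FG n ≃ FG n) (A B : Set (FG n)) :
    X4 (e ⁻¹' A) (e ⁻¹' B) ↔ X4 A B := by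
  unfold X4
  rw [← Set.preimage_compl, ← Set.preimage_compl, ← Set.preimage_inter, ← Set.preimage_inter,
    ← Set.preimage_inter, ← Set.preimage_inter, inf_pre, inf_pre, inf_pre, inf_pre]

theorem im_pre {n : ℕ} (φ : MulAut (FG n)) (A : Set (FG n)) :
    im φ A = (φ⁻¹ : MulAut (FG n)).toEquiv ⁻¹' A := rfl

theorem tr_pre {n : ℕ} (g : FG n) (A : Set (FG n)) :
    tr g A = (Equiv.mulLeft g⁻¹) ⁻¹' A := rfl

theorem im_im {n : ℕ} (φ ψ : MulAut (FG n)) (A : Set (FG n)) : im φ (im ψ A) = im (φ * ψ) A := by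
  ext y
  show ψ⁻¹ (φ⁻¹ y) ∈ A ↔ (φ * ψ)⁻¹ y ∈ A
  rw [mul_inv_rev]
  rfl

theorem tr_im {n : ℕ} (g : FG n) (φ : MulAut (FG n)) (A : Set (FG n)) :
    tr g (im φ A) = im φ (tr (φ⁻¹ g) A) := by
  ext y
  show φ⁻¹ (g⁻¹ * y) ∈ A ↔ (φ⁻¹ g)⁻¹ * φ⁻¹ y ∈ A
  rw [map_mul, map_inv]

theorem im_compl {n : ℕ} (φ : MulAut (FG n)) (A : Set (FG n)) : (im φ A)ᶜ = im φ Aᶜ := rfl

theorem X4_compl {n : ℕ} (A B : Set (FG n)) : X4 Aᶜ B ↔ X4 A B := by
  unfold X4
  rw [compl_compl]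
  tauto

theorem X4_symm {n : ℕ} (A B : Set (FG n)) (h : X4 A B) : X4 B A := by
  unfold X4 at *
  rw [Set.inter_comm B A, Set.inter_comm B Aᶜ, Set.inter_comm Bᶜ A, Set.inter_comm Bᶜ Aᶜ]
  tauto

theorem t_WAL : S_SH → S_FCB → S_NES → S_WAL := by
  intro hSH hFCB hNES n
  obtain ⟨htr, hcompl, _⟩ := hSH n
  obtain ⟨_, _, _, hFCim, hFCsh⟩ := hFCB n
  have hX : ∀ (A B : Set (FG n)) (φ : MulAut (FG n)), X4 (im φ A) (im φ B) ↔ X4 A B := by
    intro A B φ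
    rw [im_pre, im_pre, X4_pre]
  refine ⟨?_, ?_, ?_, ?_, ?_, ?_, hX, ?_, X4_symm, X4_compl⟩
  · rintro A ⟨φ, v, s, rfl⟩
    exact hFCim φ _ (hFCsh v s)
  · rintro A g ⟨φ, v, s, rfl⟩ h
    rw [tr_im, hX, htr] at h
    obtain ⟨h1, h2, h3, h4⟩ := h
    rcases hNES n v (φ⁻¹ g * v) s s with h5 | h5 | h5 | h5
    · rw [h5] at h1; exact h1 Set.finite_empty
    · rw [h5] at h2; exact h2 Set.finite_empty
    · rw [h5] at h3; exact h3 Set.finite_empty
    · rw [h5] at h4; exact h4 Set.finite_empty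
  · rintro A ⟨φ, v, s, rfl⟩
    exact ⟨φ, v * el s, op s, by rw [im_compl, hcompl]⟩
  · rintro A g ⟨φ, v, s, rfl⟩
    exact ⟨φ, φ⁻¹ g * v, s, by rw [tr_im, htr]⟩
  · rintro A φ ⟨ψ, v, s, rfl⟩
    exact ⟨φ * ψ, v, s, im_im _ _ _⟩
  · intro v s
    exact ⟨1, v, s, rfl⟩
  · intro A B g
    rw [tr_pre, tr_pre, X4_pre]

end Run7.h590.NF
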